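import Pool.Agent.Helper73.LR.Stmts

/-!
# Elementary properties of the kernel integral on the sphere (project MP_a2630c_LR)
-/

open MeasureTheory Set Metric Real
open scoped RealInnerProductSpace ENNReal
open Pool.Agent.Helper16.Buoy (E)
open Pool.Agent.Helper73.LR

namespace Pool.Agent.Helper47.LR

variable {n : ℕ}

instance sg_fin : IsFiniteMeasure (sg n) := by
  unfold sg; infer_instance

instance sg_pos : (sg n).IsOpenPosMeasure := by
  unfold sg; infer_instance

lemma int_cont {f : SS n → ℝ} (hf : Continuous f) : Integrable f (sg n) :=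
  hf.integrable_of_hasCompactSupport (HasCompactSupport.of_compactSpace f)

lemma norm_SS (u : SS n) : ‖(u : E n)‖ = 1 := by
  simp

lemma int_le_of_bound {f : SS n → ℝ} {C : ℝ} (h : ∀ v, |f v| ≤ C) :
    |∫ v, f v ∂(sg n)| ≤ C * (sg n).real univ := by
  have := norm_integral_le_of_norm_le_const (μ := sg n) (f := f) (C := C)
    (Filter.Eventually.of_forall (fun v => by simpa using h v))
  simpa using this

lemma ker_cont (t : ℝ) : Continuous (fun p : E n × SS n => max (inner ℝ p.1 (p.2 : E n) - t) 0) := by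
  fun_prop

lemma ker_abs_le (t : ℝ) {u v : E n} (hu : ‖u‖ ≤ 1) (hv : ‖v‖ = 1) :
    |max (inner ℝ u v - t) 0| ≤ 1 + |t| := by
  have h1 : |inner ℝ u v| ≤ 1 := by
    calc |inner ℝ u v| ≤ ‖u‖ * ‖v‖ := abs_real_inner_le_norm u v
      _ ≤ 1 := by rw [hv]; linarith
  rw [abs_of_nonneg (le_max_right _ _)]
  apply max_le
  · have := (abs_le.1 h1).2
    have := neg_abs_le t
    linarith
  · positivity

lemma ker_lip (t : ℝ) {u u' v : E n} (hv : ‖v‖ = 1) :
    |max (inner ℝ u v - t) 0 - max (inner ℝ u' v - t) 0| ≤ ‖u - u'‖ := by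
  calc |max (inner ℝ u v - t) 0 - max (inner ℝ u' v - t) 0|
      ≤ |(inner ℝ u v - t) - (inner ℝ u' v - t)| := abs_max_sub_max_le_abs _ _ _
    _ = |inner ℝ (u - u') v| := by rw [inner_sub_left]; ring_nf
    _ ≤ ‖u - u'‖ * ‖v‖ := abs_real_inner_le_norm _ _
    _ = ‖u - u'‖ := by rw [hv, mul_one]

lemma KI_integrable {t : ℝ} {χ : SS n → ℝ} (hχ : Continuous χ) (u : E n) :
    Integrable (fun v : SS n => max (inner ℝ u (v : E n) - t) 0 * χ v) (sg n) := by
  apply int_cont
  have : Continuous (fun v : SS n => max (inner ℝ u (v : E n) - t) 0) := by fun_prop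
  exact this.mul hχ

lemma KI_abs_le {t : ℝ} {χ : SS n → ℝ} {C : ℝ} (hC : ∀ v, |χ v| ≤ C) {u : E n}
    (hu : ‖u‖ ≤ 1) : |KI t χ u| ≤ (1 + |t|) * C * (sg n).real univ := by
  unfold KI
  apply int_le_of_bound
  intro v
  rw [abs_mul]
  exact mul_le_mul (ker_abs_le t hu (norm_SS v)) (hC v) (abs_nonneg _) (by positivity)

lemma KI_sub {t : ℝ} {χ ψ : SS n → ℝ} (hχ : Continuous χ) (hψ : Continuous ψ) (u : E n) :
    KI t χ u - KI t ψ u = KI t (fun v => χ v - ψ v) u := by
  unfold KI
  rw [← integral_sub (KI_integrable hχ u) (KI_integrable hψ u)]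
  congr 1
  ext v
  ring

lemma KI_lip {t : ℝ} {χ : SS n → ℝ} {C : ℝ} (hχ : Continuous χ) (hC : ∀ v, |χ v| ≤ C)
    (u u' : E n) : |KI t χ u - KI t χ u'| ≤ ‖u - u'‖ * C * (sg n).real univ := by
  unfold KI
  rw [← integral_sub (KI_integrable hχ u) (KI_integrable hχ u')]
  apply int_le_of_bound
  intro v
  rw [← sub_mul, abs_mul]
  exact mul_le_mul (ker_lip t (norm_SS v)) (hC v) (abs_nonneg _) (norm_nonneg _)

/-- The kernel is symmetric. -/
lemma KI_symm {t : ℝ} {ψ g : SS n → ℝ} (hψ : Continuous ψ) (hg : Continuous g) :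
    ∫ u : SS n, KI t ψ u * g u ∂(sg n) = ∫ v : SS n, ψ v * KI t g v ∂(sg n) := by
  have h1 : ∀ u : SS n, KI t ψ u * g u
      = ∫ v : SS n, max (inner ℝ (u : E n) (v : E n) - t) 0 * ψ v * g u ∂(sg n) := by
    intro u
    unfold KI
    rw [← integral_mul_const]
  have h2 : ∀ v : SS n, ψ v * KI t g v
      = ∫ u : SS n, max (inner ℝ (u : E n) (v : E n) - t) 0 * ψ v * g u ∂(sg n) := by
    intro v
    unfold KI
    rw [← integral_const_mul]
    congr 1
    ext u
    rw [real_inner_comm]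
    ring
  simp_rw [h1, h2]
  rw [integral_integral_swap]
  have hc : Continuous (fun p : SS n × SS n =>
      max (inner ℝ (p.1 : E n) (p.2 : E n) - t) 0 * ψ p.2 * g p.1) := by
    have : Continuous (fun p : SS n × SS n => max (inner ℝ (p.1 : E n) (p.2 : E n) - t) 0) := by
      fun_prop
    exact (this.mul (hψ.comp continuous_snd)).mul (hg.comp continuous_fst)
  exact hc.integrable_of_hasCompactSupport (HasCompactSupport.of_compactSpace _)

lemma KI_cont {t : ℝ} {χ : SS n → ℝ} (hχ : Continuous χ) :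
    Continuous (fun u : SS n => KI t χ (u : E n)) := by
  obtain ⟨C, hC⟩ : ∃ C, ∀ v, |χ v| ≤ C := by
    obtain ⟨C, hC⟩ := (isCompact_univ (X := SS n)).exists_bound_of_continuousOn
      (f := χ) hχ.continuousOn
    exact ⟨C, fun v => by simpa using hC v (mem_univ v)⟩
  have hC0 : 0 ≤ |C| * (sg n).real univ := by positivity
  refine LipschitzWith.continuous (K := Real.toNNReal (|C| * (sg n).real univ)) ?_
  apply LipschitzWith.of_dist_le_mul
  intro u u'
  rw [Real.coe_toNNReal _ hC0, Real.dist_eq, Subtype.dist_eq, dist_eq_norm]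
  have := KI_lip (t := t) hχ (C := |C|) (fun v => (hC v).trans (le_abs_self C)) (u : E n) (u' : E n)
  linarith

end Pool.Agent.Helper47.LR
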