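import Pool.Agent.Helper47.LR.Base

/-!
# Injectivity of the linearised equation (project MP_a2630c_LR, module INJ)
-/

open MeasureTheory Set Metric Real
open scoped RealInnerProductSpace ENNReal
open Pool.Agent.Helper16.Buoy (E)
open Pool.Agent.Helper73.LR

namespace Pool.Agent.Helper47.LR

lemma sq_sum_SS {n : ℕ} (x : SS n) :
    ∑ i : Fin n, (inner ℝ (EuclideanSpace.single i (1 : ℝ)) (x : E n)) ^ 2 = 1 := by
  have h : ‖(x : E n)‖ ^ 2 = 1 := by rw [norm_SS]; norm_num
  rw [EuclideanSpace.norm_sq_eq] at h
  simpa [EuclideanSpace.inner_single_left] using h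

theorem inj (hpoly : S_poly) (hlt : S_mult_lt) (htwo : S_mult_two) (hdense : S_dense) :
    S_inj := by
  intro n hn θ t H hB ψ hψ a b heq hm1 hm2
  -- an orthonormal pair
  obtain ⟨v, w, hv, hw, hvw⟩ : ∃ v w : E n, ‖v‖ = 1 ∧ ‖w‖ = 1 ∧ inner ℝ v w = 0 := by
    refine ⟨EuclideanSpace.single ⟨0, by omega⟩ 1, EuclideanSpace.single ⟨1, by omega⟩ 1,
      by simp, by simp, ?_⟩
    rw [EuclideanSpace.inner_single_left]
    simp
  obtain ⟨ht1, ht2, hH, -⟩ := id hB
  have hHm : mult t v w 2 = H := htwo hn hv hw hvw hB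
  -- total mass of `ψ`
  have hψi : Integrable ψ (sg n) := int_cont hψ
  have hm0 : ∫ x : SS n, ψ x ∂(sg n) = 0 := by
    have h1 : ∀ x : SS n, ψ x
        = ∑ i : Fin n, ψ x * (inner ℝ (EuclideanSpace.single i (1 : ℝ)) (x : E n)) ^ 2 := by
      intro x
      rw [← Finset.mul_sum, sq_sum_SS, mul_one]
    rw [integral_congr_ae (Filter.Eventually.of_forall h1), integral_finsetSum]
    · exact Finset.sum_eq_zero (fun i _ => hm2 _)
    · intro i _
      apply int_cont
      fun_prop
  -- the linear function
  set l : SS n → ℝ := fun u => a + inner ℝ b (u : E n) with hl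
  have hlc : Continuous l := by rw [hl]; fun_prop
  have hrel : ∀ g : SS n → ℝ, Continuous g →
      ∫ u : SS n, ψ u * g u ∂(sg n) = H⁻¹ * ∫ u : SS n, ψ u * KI t g u ∂(sg n)
        + ∫ u : SS n, l u * g u ∂(sg n) := by
    intro g hg
    rw [← KI_symm hψ hg]
    have h1 : ∀ u : SS n, ψ u * g u = H⁻¹ * (KI t ψ u * g u) + l u * g u := by
      intro u
      rw [hl]
      calc ψ u * g u = (H⁻¹ * KI t ψ u + a + inner ℝ b (u : E n)) * g u := by rw [← heq u]
        _ = _ := by ring
    rw [integral_congr_ae (Filter.Eventually.of_forall h1), integral_add, integral_const_mul]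
    · exact (int_cont ((KI_cont hψ).mul hg)).const_mul _
    · exact int_cont (hlc.mul hg)
  -- the polynomial relation
  have hpol : ∀ d : ℕ, ∃ c : ℕ → ℝ, ∀ e : E n, ‖e‖ = 1 →
      ∫ u : SS n, ψ u * KI t (fun x : SS n => (inner ℝ e (x : E n)) ^ d) u ∂(sg n)
        = mult t v w d * ∫ u : SS n, ψ u * (inner ℝ e (u : E n)) ^ d ∂(sg n)
          + ∑ j ∈ Finset.range d, c j * ∫ u : SS n, ψ u * (inner ℝ e (u : E n)) ^ j ∂(sg n) := by
    intro d
    obtain ⟨c, hc⟩ := hpoly hn hv hw hvw (t := t) d
    refine ⟨c, fun e he => ?_⟩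
    have h1 : ∀ u : SS n, ψ u * KI t (fun x : SS n => (inner ℝ e (x : E n)) ^ d) u
        = mult t v w d * (ψ u * (inner ℝ e (u : E n)) ^ d)
          + ∑ j ∈ Finset.range d, c j * (ψ u * (inner ℝ e (u : E n)) ^ j) := by
      intro u
      rw [hc e u he (norm_SS u), mul_add, Finset.mul_sum]
      congr 1
      · ring
      · exact Finset.sum_congr rfl (fun j _ => by ring)
    rw [integral_congr_ae (Filter.Eventually.of_forall h1), integral_add, integral_const_mul,
      integral_finsetSum]
    · congr 1
      exact Finset.sum_congr rfl (fun j _ => integral_const_mul _ _)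
    · intro j _
      apply Integrable.const_mul
      apply int_cont
      fun_prop
    · apply Integrable.const_mul
      apply int_cont
      fun_prop
    · apply int_cont
      fun_prop
  -- degree zero and one: the linear function has no moments of degree 0 and 1
  have hl0 : ∫ u : SS n, l u ∂(sg n) = 0 := by
    have h0 := hrel (fun _ => 1) continuous_const
    have h1 : ∀ e : E n, ‖e‖ = 1 →
        ∫ u : SS n, ψ u * KI t (fun _ : SS n => (1 : ℝ)) u ∂(sg n) = 0 := by
      intro e he
      obtain ⟨c, hc⟩ := hpol 0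
      have := hc e he
      simpa [hm0] using this
    rw [h1 v hv] at h0
    simpa [hm0] using h0.symm
  have hl1 : ∀ e : E n, ‖e‖ = 1 → ∫ u : SS n, l u * inner ℝ e (u : E n) ∂(sg n) = 0 := by
    intro e he
    have h0 := hrel (fun u => inner ℝ e (u : E n)) (by fun_prop)
    obtain ⟨c, hc⟩ := hpol 1
    have h2 := hc e he
    simp only [pow_one, Finset.range_one, Finset.sum_singleton, pow_zero, mul_one] at h2
    rw [hm0, hm1] at h2
    rw [hm1, h2] at h0
    linarith
  have hlb : ∫ u : SS n, l u * inner ℝ b (u : E n) ∂(sg n) = 0 := by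
    by_cases hb : b = 0
    · simp [hb]
    · have hb' : ‖b‖ ≠ 0 := by simpa using hb
      have h := hl1 (‖b‖⁻¹ • b) (by rw [norm_smul, norm_inv, norm_norm, inv_mul_cancel₀ hb'])
      simp_rw [inner_smul_left] at h
      have h2 : ∀ u : SS n, l u * ((starRingEnd ℝ) ‖b‖⁻¹ * inner ℝ b (u : E n))
          = ‖b‖⁻¹ * (l u * inner ℝ b (u : E n)) := by
        intro u
        simp only [conj_trivial]
        ring
      rw [integral_congr_ae (Filter.Eventually.of_forall h2), integral_const_mul] at h
      rcases mul_eq_zero.1 h with h3 | h3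
      · exact absurd (inv_eq_zero.1 h3) hb'
      · exact h3
  have hl2 : ∫ u : SS n, (l u) ^ 2 ∂(sg n) = 0 := by
    have h1 : ∀ u : SS n, (l u) ^ 2 = a * l u + l u * inner ℝ b (u : E n) := by
      intro u
      rw [hl]
      ring
    rw [integral_congr_ae (Filter.Eventually.of_forall h1), integral_add, integral_const_mul,
      hl0, hlb]
    · simp
    · exact (int_cont hlc).const_mul _
    · apply int_cont
      fun_prop
  have hlz : l = 0 := by
    have h1 : (fun u => (l u) ^ 2) =ᵐ[sg n] 0 :=
      (integral_eq_zero_iff_of_nonneg (fun u => sq_nonneg (l u)) (int_cont (hlc.pow 2))).1 hl2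
    have h2 : (fun u => (l u) ^ 2) = 0 :=
      (Continuous.ae_eq_iff_eq (sg n) (hlc.pow 2) continuous_zero).1 h1
    ext u
    have h3 := congrFun h2 u
    simpa using h3
  have hrel' : ∀ g : SS n → ℝ, Continuous g →
      ∫ u : SS n, ψ u * g u ∂(sg n) = H⁻¹ * ∫ u : SS n, ψ u * KI t g u ∂(sg n) := by
    intro g hg
    rw [hrel g hg, hlz]
    simp
  -- all moments vanish
  have hmom : ∀ (d : ℕ) (e : E n), ‖e‖ = 1 →
      ∫ x : SS n, ψ x * (inner ℝ e (x : E n)) ^ d ∂(sg n) = 0 := by
    intro d
    induction d using Nat.strong_induction_on with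
    | _ d ih =>
      intro e he
      rcases Nat.lt_or_ge d 3 with hd | hd
      · interval_cases d
        · simpa using hm0
        · simpa using hm1 e
        · exact hm2 e
      · obtain ⟨c, hc⟩ := hpol d
        have h1 := hrel' (fun u => (inner ℝ e (u : E n)) ^ d) (by fun_prop)
        rw [hc e he, Finset.sum_eq_zero, add_zero] at h1
        · have h2 : mult t v w d < H := hHm ▸ hlt hn hv hw hvw ht1 ht2 hd
          set M := ∫ x : SS n, ψ x * (inner ℝ e (x : E n)) ^ d ∂(sg n) with hM
          have h3 : (H - mult t v w d) * M = 0 := by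
            have : H * M = mult t v w d * M := by
              calc H * M = H * (H⁻¹ * (mult t v w d * M)) := by rw [← h1]
                _ = mult t v w d * M := by field_simp
            linarith
          rcases mul_eq_zero.1 h3 with h4 | h4
          · linarith
          · exact h4
        · intro j hj
          rw [ih j (Finset.mem_range.1 hj) e he, mul_zero]
  exact hdense hψ hmom

end Pool.Agent.Helper47.LR
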