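import Pool.Agent.Helper47.LR.Base

/-!
# Quantitative injectivity by compactness (project MP_a2630c_LR, module LIM)
-/

open MeasureTheory Set Metric Real Filter Topology
open scoped RealInnerProductSpace ENNReal BoundedContinuousFunction NNReal
open Pool.Agent.Helper16.Buoy (E)
open Pool.Agent.Helper73.LR

namespace Pool.Agent.Helper47.LR

lemma inner_abs_le_SS {n : ℕ} (w : E n) (x : SS n) : |inner ℝ w (x : E n)| ≤ ‖w‖ := by
  have := abs_real_inner_le_norm w (x : E n)
  rwa [norm_SS, mul_one] at this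

/-- From unit vectors to all vectors. -/
lemma mom_scale {n : ℕ} {ψ : SS n → ℝ} (d : ℕ) (hd : d ≠ 0)
    (h : ∀ w : E n, ‖w‖ = 1 → ∫ x : SS n, ψ x * (inner ℝ w (x : E n)) ^ d ∂(sg n) = 0)
    (w : E n) : ∫ x : SS n, ψ x * (inner ℝ w (x : E n)) ^ d ∂(sg n) = 0 := by
  by_cases hw : w = 0
  · simp [hw, hd]
  · have hw' : ‖w‖ ≠ 0 := by simpa using hw
    have h1 := h (‖w‖⁻¹ • w) (by rw [norm_smul, norm_inv, norm_norm, inv_mul_cancel₀ hw'])
    have h2 : ∀ x : SS n, ψ x * (inner ℝ (‖w‖⁻¹ • w) (x : E n)) ^ d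
        = (‖w‖⁻¹) ^ d * (ψ x * (inner ℝ w (x : E n)) ^ d) := by
      intro x
      rw [inner_smul_left]
      simp only [conj_trivial]
      rw [mul_pow]
      ring
    rw [integral_congr_ae (Filter.Eventually.of_forall h2), integral_const_mul] at h1
    rcases mul_eq_zero.1 h1 with h3 | h3
    · exact absurd h3 (pow_ne_zero _ (inv_ne_zero hw'))
    · exact h3

theorem limit (hinj : S_inj) : S_limit := by
  intro n hn θ t H hB
  by_contra hcon
  push Not at hcon
  obtain ⟨ht1, ht2, hH, -⟩ := id hB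
  have hk : ∀ k : ℕ, (0 : ℝ) < 1 / ((k : ℝ) + 1) := fun k => by positivity
  have hk1 : ∀ k : ℕ, (1 : ℝ) / ((k : ℝ) + 1) ≤ 1 := fun k => by
    rw [div_le_one (by positivity)]
    have : (0 : ℝ) ≤ k := Nat.cast_nonneg k
    linarith
  choose χ α a b hχc hχ1 hχe hα hE hM1 hM2 using fun k : ℕ => hcon (1 / ((k : ℝ) + 1)) (hk k)
  set S : ℝ := (sg n).real univ with hS
  have hS0 : 0 ≤ S := by positivity
  set A : ℝ := H⁻¹ + 1 with hA
  have hA0 : 0 < A := by have := inv_pos.2 hH; positivity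
  have hαA : ∀ k, |α k| ≤ A := by
    intro k
    have h1 := (hα k).trans (hk1 k)
    have h2 : |α k| ≤ |α k - H⁻¹| + |H⁻¹| := by
      have := abs_add_le (α k - H⁻¹) H⁻¹
      simpa using this
    rw [abs_of_pos (inv_pos.2 hH)] at h2
    linarith
  have hKI : ∀ k (u : E n), ‖u‖ ≤ 1 → |KI t (χ k) u| ≤ (1 + |t|) * S := by
    intro k u hu
    have := KI_abs_le (t := t) (hχ1 k) hu
    simpa using this
  set C2 : ℝ := 2 + A * ((1 + |t|) * S) with hC2
  have hlin : ∀ k (u : SS n), |a k + inner ℝ (b k) (u : E n)| ≤ C2 := by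
    intro k u
    have h1 := (hE k u).trans (hk1 k)
    have h2 : a k + inner ℝ (b k) (u : E n) = χ k u + (- (α k * KI t (χ k) u))
        + (- (χ k u - α k * KI t (χ k) u - a k - inner ℝ (b k) (u : E n))) := by ring
    rw [h2]
    refine (abs_add_three _ _ _).trans ?_
    rw [abs_neg, abs_neg, abs_mul]
    have h3 := mul_le_mul (hαA k) (hKI k u (norm_SS u).le) (abs_nonneg _) hA0.le
    have h4 := hχ1 k u
    linarith
  have hneg : ∀ u : SS n, ∃ u' : SS n, (u' : E n) = -(u : E n) := fun u => ⟨-u, rfl⟩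
  obtain ⟨e0⟩ : Nonempty (SS n) := by
    obtain ⟨v, hv⟩ := hχe 0
    exact ⟨v⟩
  have ha : ∀ k, |a k| ≤ C2 := by
    intro k
    obtain ⟨u', hu'⟩ := hneg e0
    have h1 := hlin k e0
    have h2 := hlin k u'
    rw [hu', inner_neg_right] at h2
    rw [abs_le] at h1 h2 ⊢
    constructor <;> linarith [h1.1, h1.2, h2.1, h2.2]
  have hb : ∀ k, ‖b k‖ ≤ 2 * C2 := by
    intro k
    have hC20 : 0 ≤ C2 := (abs_nonneg _).trans (ha k)
    by_cases hb0 : b k = 0
    · rw [hb0, norm_zero]; positivity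
    · have hb' : ‖b k‖ ≠ 0 := by simpa using hb0
      have h1 := hlin k ⟨‖b k‖⁻¹ • b k, by
        simp [norm_smul, inv_mul_cancel₀ hb']⟩
      have h2 : inner ℝ (b k) (‖b k‖⁻¹ • b k) = ‖b k‖ := by
        rw [inner_smul_right, real_inner_self_eq_norm_sq]
        field_simp
      simp only [h2] at h1
      have h3 := ha k
      rw [abs_le] at h1 h3
      linarith [h1.1, h1.2, h3.1, h3.2]
  -- first extraction
  obtain ⟨⟨as, bs⟩, -, φ1, hφ1, hlim1⟩ := tendsto_subseq_of_bounded
    (isBounded_closedBall (x := ((0 : ℝ), (0 : E n))) (r := 2 * C2)) (x := fun k => (a k, b k))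
    (fun k => by
      have h0 : dist (a k, b k) ((0 : ℝ), (0 : E n)) ≤ 2 * C2 := by
        rw [Prod.dist_eq]
        have hC20 : 0 ≤ C2 := (abs_nonneg _).trans (ha k)
        refine max_le ?_ ?_
        · rw [Real.dist_eq, sub_zero]
          linarith [ha k]
        · rw [dist_zero_right]
          exact hb k
      exact h0)
  -- the functions
  have hFc : ∀ k, Continuous (fun u : SS n => α k * KI t (χ k) u + a k + inner ℝ (b k) (u : E n)) := by
    intro k
    have := KI_cont (t := t) (hχc k)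
    fun_prop
  set F : ℕ → (SS n →ᵇ ℝ) := fun k => BoundedContinuousFunction.mkOfCompact
    ⟨fun u : SS n => α k * KI t (χ k) u + a k + inner ℝ (b k) (u : E n), hFc k⟩ with hF
  have hFv : ∀ k u, F k u = α k * KI t (χ k) u + a k + inner ℝ (b k) (u : E n) := fun k u => rfl
  have hFd : ∀ k u, |χ k u - F k u| ≤ 1 / ((k : ℝ) + 1) := by
    intro k u
    rw [hFv]
    have := hE k u
    convert this using 2
    ring
  set L : ℝ := A * S + 2 * C2 with hL
  have hFl : ∀ k, LipschitzWith (Real.toNNReal L) (F k) := by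
    intro k
    apply LipschitzWith.of_dist_le_mul
    intro u u'
    have hC20 : 0 ≤ C2 := (abs_nonneg _).trans (ha k)
    rw [Real.coe_toNNReal _ (by positivity), Real.dist_eq, Subtype.dist_eq, dist_eq_norm, hFv, hFv]
    have h1 := KI_lip (t := t) (hχc k) (hχ1 k) (u : E n) (u' : E n)
    rw [mul_one] at h1
    have h2 : |inner ℝ (b k) ((u : E n) - u')| ≤ ‖b k‖ * ‖(u : E n) - u'‖ :=
      abs_real_inner_le_norm _ _
    have h3 : α k * KI t (χ k) u + a k + inner ℝ (b k) (u : E n)
        - (α k * KI t (χ k) u' + a k + inner ℝ (b k) (u' : E n))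
        = α k * (KI t (χ k) u - KI t (χ k) u') + inner ℝ (b k) ((u : E n) - u') := by
      rw [inner_sub_right]; ring
    rw [h3]
    refine (abs_add_le _ _).trans ?_
    rw [abs_mul]
    have h4 := mul_le_mul (hαA k) h1 (abs_nonneg _) hA0.le
    have h5 := mul_le_mul_of_nonneg_right (hb k) (norm_nonneg ((u : E n) - u'))
    calc |α k| * |KI t (χ k) u - KI t (χ k) u'| + |inner ℝ (b k) ((u : E n) - u')|
        ≤ A * (‖(u : E n) - u'‖ * S) + 2 * C2 * ‖(u : E n) - u'‖ := by linarith
      _ = L * ‖(u : E n) - u'‖ := by rw [hL]; ring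
  have hcomp : IsCompact (closure (range F)) := by
    apply BoundedContinuousFunction.arzela_ascoli (Icc (-2 : ℝ) 2) isCompact_Icc
    · rintro f u ⟨k, rfl⟩
      have h1 := (hFd k u).trans (hk1 k)
      have h2 := hχ1 k u
      rw [abs_le] at h1 h2
      constructor <;> linarith [h1.1, h1.2, h2.1, h2.2]
    · apply UniformEquicontinuous.equicontinuous
      apply LipschitzWith.uniformEquicontinuous _ (Real.toNNReal L)
      rintro ⟨f, k, rfl⟩
      exact hFl k
  obtain ⟨g, -, φ2, hφ2, hlim2⟩ := hcomp.tendsto_subseq (x := fun k => F (φ1 k))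
    (fun k => subset_closure (mem_range_self _))
  set φ : ℕ → ℕ := fun k => φ1 (φ2 k) with hφ
  have hφm : StrictMono φ := hφ1.comp hφ2
  -- uniform convergence
  set δ : ℕ → ℝ := fun k => 1 / ((φ k : ℝ) + 1) + dist (F (φ k)) g with hδ
  have h1k : Tendsto (fun k => 1 / ((φ k : ℝ) + 1)) atTop (𝓝 0) :=
    (tendsto_one_div_add_atTop_nhds_zero_nat (𝕜 := ℝ)).comp hφm.tendsto_atTop
  have hδ0 : Tendsto δ atTop (𝓝 0) := by
    have h2 : Tendsto (fun k => dist (F (φ k)) g) atTop (𝓝 0) :=
      (tendsto_iff_dist_tendsto_zero).1 hlim2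
    have h3 := h1k.add h2
    rw [add_zero] at h3
    exact h3
  have hχg : ∀ k u, |χ (φ k) u - g u| ≤ δ k := by
    intro k u
    have h1 := hFd (φ k) u
    have h2 : |F (φ k) u - g u| ≤ dist (F (φ k)) g := by
      have := BoundedContinuousFunction.dist_coe_le_dist (f := F (φ k)) (g := g) u
      rwa [Real.dist_eq] at this
    calc |χ (φ k) u - g u| = |(χ (φ k) u - F (φ k) u) + (F (φ k) u - g u)| := by ring_nf
      _ ≤ |χ (φ k) u - F (φ k) u| + |F (φ k) u - g u| := abs_add_le _ _
      _ ≤ δ k := by rw [hδ]; linarith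
  have hδnn : ∀ k, 0 ≤ δ k := fun k => (abs_nonneg _).trans (hχg k e0)
  have hgc : Continuous (fun u => g u) := g.continuous
  -- the equation in the limit
  have hαl : Tendsto (fun k => α (φ k)) atTop (𝓝 H⁻¹) := by
    rw [tendsto_iff_dist_tendsto_zero]
    refine squeeze_zero (fun _ => dist_nonneg) (fun k => ?_) h1k
    rw [Real.dist_eq]
    exact hα (φ k)
  have hab : Tendsto (fun k => (a (φ k), b (φ k))) atTop (𝓝 (as, bs)) :=
    hlim1.comp hφ2.tendsto_atTop
  have hal : Tendsto (fun k => a (φ k)) atTop (𝓝 as) := (continuous_fst.tendsto _).comp hab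
  have hbl : Tendsto (fun k => b (φ k)) atTop (𝓝 bs) := (continuous_snd.tendsto _).comp hab
  have hχl : ∀ u, Tendsto (fun k => χ (φ k) u) atTop (𝓝 (g u)) := by
    intro u
    rw [tendsto_iff_dist_tendsto_zero]
    refine squeeze_zero (fun _ => dist_nonneg) (fun k => ?_) hδ0
    rw [Real.dist_eq]
    exact hχg k u
  have hKIl : ∀ u : SS n, Tendsto (fun k => KI t (χ (φ k)) u) atTop (𝓝 (KI t (fun v => g v) u)) := by
    intro u
    rw [tendsto_iff_dist_tendsto_zero]
    have h2 : Tendsto (fun k => (1 + |t|) * δ k * S) atTop (𝓝 0) := by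
      simpa using (hδ0.const_mul (1 + |t|)).mul_const S
    refine squeeze_zero (fun _ => dist_nonneg) (fun k => ?_) h2
    rw [Real.dist_eq, KI_sub (hχc _) hgc]
    exact KI_abs_le (hχg k) (norm_SS u).le
  have heq : ∀ u : SS n, g u = H⁻¹ * KI t (fun v => g v) u + as + inner ℝ bs (u : E n) := by
    intro u
    have h2 : Tendsto (fun k => χ (φ k) u - α (φ k) * KI t (χ (φ k)) u - a (φ k)
        - inner ℝ (b (φ k)) (u : E n)) atTop
        (𝓝 (g u - H⁻¹ * KI t (fun v => g v) u - as - inner ℝ bs (u : E n))) :=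
      (((hχl u).sub (hαl.mul (hKIl u))).sub hal).sub (hbl.inner tendsto_const_nhds)
    have h3 : Tendsto (fun k => χ (φ k) u - α (φ k) * KI t (χ (φ k)) u - a (φ k)
        - inner ℝ (b (φ k)) (u : E n)) atTop (𝓝 0) :=
      squeeze_zero_norm (fun k => by simpa [Real.norm_eq_abs] using hE (φ k) u) h1k
    have := tendsto_nhds_unique h2 h3
    linarith
  -- the moments in the limit
  have hmoml : ∀ (d : ℕ) (w : E n), ‖w‖ = 1 →
      (∀ k, |∫ x : SS n, χ k x * (inner ℝ w (x : E n)) ^ d ∂(sg n)| ≤ 1 / ((k : ℝ) + 1)) →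
      ∫ x : SS n, g x * (inner ℝ w (x : E n)) ^ d ∂(sg n) = 0 := by
    intro d w hw hbd
    have h3 : Tendsto (fun k => ∫ x : SS n, χ (φ k) x * (inner ℝ w (x : E n)) ^ d ∂(sg n)) atTop
        (𝓝 0) :=
      squeeze_zero_norm (fun k => by simpa [Real.norm_eq_abs] using hbd (φ k)) h1k
    have h4 : Tendsto (fun k => ∫ x : SS n, χ (φ k) x * (inner ℝ w (x : E n)) ^ d ∂(sg n)) atTop
        (𝓝 (∫ x : SS n, g x * (inner ℝ w (x : E n)) ^ d ∂(sg n))) := by
      rw [tendsto_iff_dist_tendsto_zero]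
      have h2 : Tendsto (fun k => δ k * S) atTop (𝓝 0) := by
        simpa using hδ0.mul_const S
      refine squeeze_zero (fun _ => dist_nonneg) (fun k => ?_) h2
      rw [Real.dist_eq, ← integral_sub]
      · apply int_le_of_bound
        intro x
        rw [← sub_mul, abs_mul, abs_pow]
        have h5 : |inner ℝ w (x : E n)| ^ d ≤ 1 := by
          apply pow_le_one₀ (abs_nonneg _)
          have := inner_abs_le_SS w x
          rwa [hw] at this
        calc |χ (φ k) x - g x| * |inner ℝ w (x : E n)| ^ d ≤ |χ (φ k) x - g x| * 1 :=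
              mul_le_mul_of_nonneg_left h5 (abs_nonneg _)
          _ ≤ δ k := by rw [mul_one]; exact hχg k x
      · apply int_cont
        have := hχc (φ k)
        fun_prop
      · apply int_cont
        fun_prop
    exact tendsto_nhds_unique h4 h3
  have hz := hinj hn hB hgc heq
    (fun w => by
      have := mom_scale (ψ := fun x => g x) 1 (by norm_num) (fun w hw => hmoml 1 w hw
        (fun k => by simpa using hM1 k w hw)) w
      simpa using this)
    (fun w => mom_scale (ψ := fun x => g x) 2 (by norm_num) (fun w hw => hmoml 2 w hw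
        (fun k => (hM2 k).1 w hw)) w)
  -- contradiction
  have hge : ∀ k, 1 ≤ δ k := by
    intro k
    obtain ⟨v, hv⟩ := hχe (φ k)
    have := hχg k v
    rw [hz v, sub_zero, hv] at this
    exact this
  have := ge_of_tendsto' hδ0 hge
  linarith

end Pool.Agent.Helper47.LR
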